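import Mathlib

/-!
# MP_441cc7_al, Q1: any `k` of the polynomials `P_i` are linearly independent
-/

namespace Pool.Agent.Results.MP_441cc7_al.Independent

open Polynomial

/-- `P_i(x) = ∏_{j=1}^{k-1} (x - t_{i+j})`. -/
noncomputable def P (t : ℕ → ℝ) (k i : ℕ) : ℝ[X] :=
  ∏ j ∈ Finset.Icc 1 (k - 1), (X - C (t (i + j)))

/-- the auxiliary version with `m` factors -/
noncomputable def Q (t : ℕ → ℝ) (m i : ℕ) : ℝ[X] :=
  ∏ j ∈ Finset.range m, (X - C (t (i + (j + 1))))

lemma P_eq_Q (t : ℕ → ℝ) (k i : ℕ) : P t k i = Q t (k - 1) i := by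
  unfold P Q
  rw [Finset.range_eq_Ico, Finset.prod_Ico_add' (fun j => X - C (t (i + j))) 0 (k - 1) 1]
  rfl

lemma Q_diff (t : ℕ → ℝ) (m i : ℕ) :
    Q t (m + 1) i - Q t (m + 1) (i + 1) = C (t (i + 1 + (m + 1)) - t (i + 1)) * Q t m (i + 1) := by
  unfold Q
  rw [Finset.prod_range_succ' (fun j => X - C (t (i + (j + 1)))) m,
    Finset.prod_range_succ (fun j => X - C (t (i + 1 + (j + 1)))) m]
  have : ∏ j ∈ Finset.range m, (X - C (t (i + (j + 1 + 1))))
      = ∏ j ∈ Finset.range m, (X - C (t (i + 1 + (j + 1)))) := by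
    apply Finset.prod_congr rfl
    intro j _
    rw [show i + (j + 1 + 1) = i + 1 + (j + 1) by omega]
  rw [this]
  simp only [C_sub, zero_add]
  ring

lemma Q_monic (t : ℕ → ℝ) (m i : ℕ) : (Q t m i).Monic :=
  monic_prod_of_monic _ _ fun _ _ => monic_X_sub_C _

lemma Q_natDegree (t : ℕ → ℝ) (m i : ℕ) : (Q t m i).natDegree = m := by
  unfold Q
  rw [natDegree_prod_of_monic _ _ fun j _ => monic_X_sub_C _]
  simp

/-- a weak alternation chain with `s + 1` points -/
def Chain (c : ℕ → ℝ) (s : ℕ) : Prop :=
  ∃ (e : ℝ) (j : ℕ → ℕ), e ≠ 0 ∧ (∀ l < s, j l < j (l + 1)) ∧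
    ∀ l ≤ s, 0 ≤ e * (-1) ^ l * c (j l)

lemma chain_step (c d : ℕ → ℝ) (h : ∀ i, ∃ r > 0, c i - c (i + 1) = r * d (i + 1)) (s : ℕ)
    (hc : Chain c (s + 1)) : Chain d s := by
  obtain ⟨e, j, he, hj, hs⟩ := hc
  have key : ∀ l, l ≤ s → ∃ i, j l < i ∧ i ≤ j (l + 1) ∧ 0 ≤ e * (-1) ^ l * d i := by
    intro l hl
    by_contra hcon
    push Not at hcon
    have hmono : ∀ n, j l + n ≤ j (l + 1) →
        e * (-1) ^ l * c (j l) + (if n = 0 then 0 else 0) ≤ e * (-1) ^ l * c (j l + n) ∧
        (0 < n → e * (-1) ^ l * c (j l) < e * (-1) ^ l * c (j l + n)) := by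
      intro n
      induction n with
      | zero => intro _; simp
      | succ n ih =>
        intro hn
        have h1 := (ih (by omega)).1
        obtain ⟨r, hr, hr'⟩ := h (j l + n)
        have h2 := hcon (j l + n + 1) (by omega) (by omega)
        have h3 : e * (-1) ^ l * c (j l + n) < e * (-1) ^ l * c (j l + n + 1) := by
          have : e * (-1) ^ l * (c (j l + n) - c (j l + n + 1)) < 0 := by
            rw [hr']
            have : e * (-1) ^ l * (r * d (j l + n + 1)) = r * (e * (-1) ^ l * d (j l + n + 1)) := by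
              ring
            rw [this]
            exact mul_neg_of_pos_of_neg hr h2
          linarith
        have h1' : e * (-1) ^ l * c (j l) ≤ e * (-1) ^ l * c (j l + n) := by
          simpa using h1
        have h4 : e * (-1) ^ l * c (j l) < e * (-1) ^ l * c (j l + (n + 1)) := by
          rw [← add_assoc]; linarith
        refine ⟨?_, fun _ => h4⟩
        simpa using h4.le
    have hlt := hj l (by omega)
    have h5 := (hmono (j (l + 1) - j l) (by omega)).2 (by omega)
    rw [Nat.add_sub_cancel' hlt.le] at h5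
    have h6 := hs l (by omega)
    have h7 := hs (l + 1) (by omega)
    rw [pow_succ] at h7
    have : e * ((-1) ^ l * -1) * c (j (l + 1)) = - (e * (-1) ^ l * c (j (l + 1))) := by ring
    rw [this] at h7
    linarith
  choose! g hg using key
  refine ⟨e, g, he, ?_, fun l hl => (hg l hl).2.2⟩
  intro l hl
  have h1 := hg l (by omega)
  have h2 := hg (l + 1) (by omega)
  omega

lemma no_chain (t : ℕ → ℝ) (ht : StrictMono fun n => t (n + 1)) (m : ℕ) (φ : ℝ[X] →ₗ[ℝ] ℝ)
    (hφ : ∃ p ∈ degreeLT ℝ (m + 1), φ p ≠ 0) : ¬ Chain (fun i => φ (Q t m i)) (m + 1) := by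
  -- no chain of two points when the sequence is constant and nonzero
  have hconst : ∀ (c : ℕ → ℝ) (a : ℝ) (s : ℕ), a ≠ 0 → (∀ i, c i = a) → ¬ Chain c (s + 1) := by
    rintro c a s ha hc ⟨e, j, he, -, hs⟩
    have h0 := hs 0 (by omega)
    have h1 := hs 1 (by omega)
    rw [hc] at h0 h1
    have h2 : e * a ≠ 0 := mul_ne_zero he ha
    have h3 : 0 ≤ e * a := by simpa using h0
    have h4 : 0 ≤ - (e * a) := by
      have : e * (-1) ^ 1 * a = -(e * a) := by ring
      rwa [this] at h1
    exact h2 (by linarith)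
  induction m with
  | zero =>
    obtain ⟨p, hp, hp0⟩ := hφ
    apply hconst _ (φ 1) 0
    · intro h1
      apply hp0
      rw [mem_degreeLT] at hp
      have : p.degree ≤ 0 := by
        rw [degree_lt_iff_coeff_zero] at hp
        have h0 : ((0 : ℕ) : WithBot ℕ) = 0 := rfl
        rw [← h0, degree_le_iff_coeff_zero]
        intro l hl
        apply hp
        have : 0 < l := by exact_mod_cast hl
        omega
      rw [eq_C_of_degree_le_zero this]
      have : (C (p.coeff 0) : ℝ[X]) = (p.coeff 0) • (1 : ℝ[X]) := by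
        rw [smul_eq_C_mul, mul_one]
      rw [this, map_smul, h1, smul_zero]
    · intro i
      simp [Q]
  | succ m ih =>
    intro hch
    by_cases hz : ∃ p ∈ degreeLT ℝ (m + 1), φ p ≠ 0
    · refine ih hz (chain_step _ _ ?_ _ hch)
      intro i
      refine ⟨t (i + 1 + (m + 1)) - t (i + 1), ?_, ?_⟩
      · have h1 : t (i + 1) < t (i + (m + 1) + 1) := ht (show i < i + (m + 1) by omega)
        rw [show i + (m + 1) + 1 = i + 1 + (m + 1) by omega] at h1
        linarith
      · rw [← map_sub, Q_diff, ← smul_eq_C_mul, map_smul, smul_eq_mul]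
    · push Not at hz
      obtain ⟨p, hp, hp0⟩ := hφ
      have hstep : ∀ i, φ (Q t (m + 1) (i + 1)) = φ (Q t (m + 1) i) := by
        intro i
        have h1 : φ (Q t m (i + 1)) = 0 := by
          apply hz
          rw [mem_degreeLT, degree_eq_natDegree (Q_monic _ _ _).ne_zero, Q_natDegree]
          exact_mod_cast Nat.lt_succ_self m
        have h2 : φ (Q t (m + 1) i) - φ (Q t (m + 1) (i + 1)) = 0 := by
          rw [← map_sub, Q_diff, ← smul_eq_C_mul, map_smul, h1, smul_zero]
        linarith
      have hcc : ∀ i, φ (Q t (m + 1) i) = φ (Q t (m + 1) 0) := by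
        intro i
        induction i with
        | zero => rfl
        | succ i ih2 => rw [hstep, ih2]
      refine hconst _ (φ (Q t (m + 1) 0)) (m + 1) ?_ hcc hch
      intro h0
      apply hp0
      have hr : p - C (p.coeff (m + 1)) * Q t (m + 1) 0 ∈ degreeLT ℝ (m + 1) := by
        rw [mem_degreeLT, degree_lt_iff_coeff_zero]
        intro l hl
        rcases Nat.eq_or_lt_of_le hl with h | h
        · subst h
          rw [coeff_sub, coeff_C_mul]
          have : (Q t (m + 1) 0).coeff (m + 1) = 1 := by
            have := (Q_monic t (m + 1) 0).coeff_natDegree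
            rwa [Q_natDegree] at this
          rw [this]; ring
        · rw [coeff_sub, coeff_C_mul]
          have h1 : p.coeff l = 0 := by
            rw [mem_degreeLT, degree_lt_iff_coeff_zero] at hp
            exact hp l h
          have h2 : (Q t (m + 1) 0).coeff l = 0 := by
            apply coeff_eq_zero_of_natDegree_lt
            rw [Q_natDegree]; exact h
          rw [h1, h2]; ring
      have h3 := hz _ hr
      rw [map_sub, ← smul_eq_C_mul, map_smul, h0, smul_zero, sub_zero] at h3
      exact h3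

/-- Q1, affirmative: for every `k ≥ 2`, every strictly increasing real sequence
`t_1 < t_2 < ...` and all indices `0 ≤ i_1 < ... < i_k`, the polynomials
`P_{i_1}, ..., P_{i_k}` are linearly independent over `ℝ`. -/
theorem result (k : ℕ) (hk : 2 ≤ k) (t : ℕ → ℝ) (ht : ∀ n, 1 ≤ n → t n < t (n + 1))
    (i : Fin k → ℕ) (hi : StrictMono i) :
    LinearIndependent ℝ (fun l : Fin k => P t k (i l)) := by
  obtain ⟨m, rfl⟩ : ∃ m, k = m + 1 := ⟨k - 1, by omega⟩
  have htm : StrictMono fun n => t (n + 1) := strictMono_nat_of_lt_succ fun n => ht (n + 1) (by omega)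
  have hPm : ∀ l, P t (m + 1) (i l) ∈ degreeLT ℝ (m + 1) := by
    intro l
    rw [P_eq_Q, mem_degreeLT, degree_eq_natDegree (Q_monic _ _ _).ne_zero, Q_natDegree]
    exact_mod_cast (by simp : m + 1 - 1 < m + 1)
  let b : Fin (m + 1) → degreeLT ℝ (m + 1) := fun l => ⟨P t (m + 1) (i l), hPm l⟩
  have hb : LinearIndependent ℝ b := by
    have : FiniteDimensional ℝ (degreeLT ℝ (m + 1)) :=
      LinearEquiv.finiteDimensional (degreeLTEquiv ℝ (m + 1)).symm
    have hfr : Module.finrank ℝ (degreeLT ℝ (m + 1)) = m + 1 := by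
      rw [LinearEquiv.finrank_eq (degreeLTEquiv ℝ (m + 1))]
      simp
    apply linearIndependent_of_top_le_span_of_card_eq_finrank
    · by_contra hcon
      have hlt : Submodule.span ℝ (Set.range b) < ⊤ := by
        rw [lt_top_iff_ne_top]
        intro h
        exact hcon h.ge
      obtain ⟨f, hf0, hf⟩ := Submodule.exists_le_ker_of_lt_top _ hlt
      obtain ⟨φ, hφ⟩ := LinearMap.exists_extend f
      have hφ' : ∀ x : degreeLT ℝ (m + 1), φ x = f x := fun x => by
        rw [← hφ]; rfl
      have hex : ∃ p ∈ degreeLT ℝ (m + 1), φ p ≠ 0 := by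
        by_contra hall
        push Not at hall
        apply hf0
        ext x
        rw [← hφ']
        simpa using hall x x.2
      apply no_chain t htm m φ hex
      have hzero : ∀ l, φ (Q t m (i l)) = 0 := by
        intro l
        have h1 : f (b l) = 0 := by
          have := hf (Submodule.subset_span ⟨l, rfl⟩ : b l ∈ Submodule.span ℝ (Set.range b))
          simpa using this
        rw [← hφ' (b l)] at h1
        have h2 : ((b l : degreeLT ℝ (m + 1)) : ℝ[X]) = Q t m (i l) := by
          show P t (m + 1) (i l) = _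
          rw [P_eq_Q]; rfl
        rwa [h2] at h1
      -- the chain i_1 < ... < i_k < i_k + 1
      let last : ℕ := i (Fin.last m) + 1
      let j : ℕ → ℕ := fun l => if h : l < m + 1 then i ⟨l, h⟩ else last
      have hsgn : ∃ e : ℝ, e ≠ 0 ∧ 0 ≤ e * (-1) ^ (m + 1) * φ (Q t m last) := by
        by_cases h0 : φ (Q t m last) = 0
        · exact ⟨1, one_ne_zero, by rw [h0]; simp⟩
        · refine ⟨(-1) ^ (m + 1) * φ (Q t m last), mul_ne_zero (by positivity) h0, ?_⟩
          have : (-1) ^ (m + 1) * φ (Q t m last) * (-1) ^ (m + 1) * φ (Q t m last)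
              = ((-1) ^ (m + 1) * φ (Q t m last)) ^ 2 := by ring
          rw [this]
          positivity
      obtain ⟨e, he, hpos⟩ := hsgn
      refine ⟨e, j, he, ?_, ?_⟩
      · intro l hl
        by_cases hl' : l + 1 < m + 1
        · simp only [j, hl, hl', dif_pos]
          exact hi (by simp)
        · simp only [j, hl, hl', dif_pos, dif_neg, not_false_eq_true]
          have : (⟨l, hl⟩ : Fin (m + 1)) = Fin.last m := by
            ext; simp; omega
          rw [this]
          exact Nat.lt_succ_self _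
      · intro l hl
        by_cases hl' : l < m + 1
        · simp only [j, hl', dif_pos]
          rw [hzero]; simp
        · have : l = m + 1 := by omega
          subst this
          simp only [j, hl', dif_neg, not_false_eq_true]
          exact hpos
    · simp [hfr]
  have := hb.map' (degreeLT ℝ (m + 1)).subtype (Submodule.ker_subtype _)
  exact this

end Pool.Agent.Results.MP_441cc7_al.Independent
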